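import Pool.Agent.helper358_gh.Final

/-!
# MP_edcda5_an, Q1 (full positive answer)

For every dimension `d ≥ 1` and every `1 < p < ∞`, with the explicit constant
`c_{d,p} = (1 - 2^{1-p}) / 2^{p + 2 + d (p - 1)} > 0`:

for every weight `w` on `ℝ^d` (locally integrable and a.e. positive) with
`K = [w]_{RH_p} < ∞` (supremum over all axis-parallel cubes), every axis-parallel cube `Q` and
every `0 < ε ≤ c_{d,p} K^{-p}`,

`⟨w^{p+ε}⟩_Q ≤ 2 K^p ⟨w⟩_Q^{p+ε} ≤ 2 K^{p+ε} ⟨w⟩_Q^{p+ε}`.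
-/

open MeasureTheory
open scoped ENNReal

namespace Pool.Agent.Results.MP_edcda5_an.ExplicitGehringExponent

open helper358_gh

theorem result (d : ℕ) (_hd : 1 ≤ d) (p : ℝ) (hp : 1 < p) :
    ∃ c : ℝ, c = (1 - (2 : ℝ) ^ (1 - p)) / (2 : ℝ) ^ (p + 2 + d * (p - 1)) ∧ 0 < c ∧
      ∀ w : (Fin d → ℝ) → ℝ, IsWeight w → rhConst p w < ∞ →
        ∀ (a : Fin d → ℝ) (ℓ : ℝ), 0 < ℓ →
          ∀ ε : ℝ, 0 < ε → ε ≤ c * (rhConst p w).toReal ^ (-p) →
            avg (fun x => ENNReal.ofReal (w x) ^ (p + ε)) a ℓ ≤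
                2 * rhConst p w ^ p * avg (fun x => ENNReal.ofReal (w x)) a ℓ ^ (p + ε) ∧
              2 * rhConst p w ^ p * avg (fun x => ENNReal.ofReal (w x)) a ℓ ^ (p + ε) ≤
                2 * rhConst p w ^ (p + ε) *
                  avg (fun x => ENNReal.ofReal (w x)) a ℓ ^ (p + ε) := by
  refine ⟨cdp d p, rfl, cdp_pos d hp, ?_⟩
  intro w hw hK a ℓ hℓ ε hε hεc
  refine ⟨main_result d p hp w hw hK ε hε hεc a ℓ hℓ, ?_⟩
  have h1 := one_le_rhConst hw hp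
  have h2 : rhConst p w ^ p ≤ rhConst p w ^ (p + ε) :=
    ENNReal.rpow_le_rpow_of_exponent_le h1 (by linarith)
  gcongr

end Pool.Agent.Results.MP_edcda5_an.ExplicitGehringExponent
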